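import Pool.Agent.H54.Frank.Path

/-!
# Classes of base polyhedra with opposite vertices
-/

set_option autoImplicit false
set_option maxHeartbeats 4000000

open Finset

namespace Pool.Agent.H54.Frank

variable {V : Type*} [Fintype V] [DecidableEq V]

omit [Fintype V] in
lemma path_aux {f : Finset V → ℝ} {S T : Finset V} {k : ℕ}
    (hall : ∀ A N : Finset V, A ⊆ T \ S → N ⊆ T \ S → Disjoint A N → #A = k → #N = k →
      Pt f S T k A N) {z : V} (hz : z ∈ T \ S) :
    ∀ (n : ℕ) (A N A₁ N₁ : Finset V), #A₁ = n → #N₁ = n → A₁ ⊆ A → N₁ ⊆ N → A ⊆ T \ S →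
      N ⊆ T \ S → Disjoint A N → #A = k → #N = k → z ∉ A → z ∉ N →
      Relation.ReflTransGen (Move f S T k) (A, N) ((A \ A₁) ∪ N₁, (N \ N₁) ∪ A₁) := by
  intro n
  induction n with
  | zero =>
    intro A N A₁ N₁ h1 h2 _ _ _ _ _ _ _ _ _
    rw [Finset.card_eq_zero.1 h1, Finset.card_eq_zero.1 h2]
    simp only [Finset.sdiff_empty, Finset.union_empty]
    exact Relation.ReflTransGen.refl
  | succ n ih =>
    intro A N A₁ N₁ h1 h2 hA₁ hN₁ hA hN hd cA cN hzA hzN
    obtain ⟨a, ha⟩ : A₁.Nonempty := Finset.card_pos.1 (by omega)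
    obtain ⟨b, hb⟩ : N₁.Nonempty := Finset.card_pos.1 (by omega)
    have haA := hA₁ ha
    have hbN := hN₁ hb
    have haN : a ∉ N := Finset.disjoint_left.1 hd haA
    have hbA : b ∉ A := Finset.disjoint_right.1 hd hbN
    have hab : a ≠ b := fun h0 => haN (h0 ▸ hbN)
    have haz : a ≠ z := fun h0 => hzA (h0 ▸ haA)
    have hbz : b ≠ z := fun h0 => hzN (h0 ▸ hbN)
    have ck : 1 ≤ k := by rw [← cA]; exact Finset.card_pos.2 ⟨a, haA⟩
    -- first move
    have m1 : Move f S T k (A, N) (insert z (A.erase a), N) := by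
      refine ⟨hall _ _ ?_ hN ?_ ?_ cN, z, hz, hzA, hzN, Or.inl ⟨a, haA, rfl, rfl⟩⟩
      · exact Finset.insert_subset hz ((Finset.erase_subset _ _).trans hA)
      · rw [Finset.disjoint_insert_left]
        exact ⟨hzN, hd.mono_left (Finset.erase_subset _ _)⟩
      · rw [Finset.card_insert_of_notMem fun h0 => hzA (Finset.mem_of_mem_erase h0),
          Finset.card_erase_of_mem haA]
        omega
    -- second move
    have m2 : Move f S T k (insert z (A.erase a), N)
        (insert z (A.erase a), insert a (N.erase b)) := by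
      refine ⟨hall _ _ m1.1.hA ?_ ?_ m1.1.cA ?_, a, hA haA, ?_, haN, Or.inr ⟨b, hbN, rfl, rfl⟩⟩
      · exact Finset.insert_subset (hA haA) ((Finset.erase_subset _ _).trans hN)
      · rw [Finset.disjoint_insert_right]
        refine ⟨?_, m1.1.dis.mono_right (Finset.erase_subset _ _)⟩
        simp only [Finset.mem_insert, Finset.mem_erase, not_or]
        exact ⟨haz, fun h0 => h0.1 rfl⟩
      · rw [Finset.card_insert_of_notMem fun h0 => haN (Finset.mem_of_mem_erase h0),
          Finset.card_erase_of_mem hbN]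
        omega
      · simp only [Finset.mem_insert, Finset.mem_erase, not_or]
        exact ⟨haz, fun h0 => h0.1 rfl⟩
    -- third move
    have e3 : insert b ((insert z (A.erase a)).erase z) = insert b (A.erase a) := by
      rw [Finset.erase_insert fun h0 => hzA (Finset.mem_of_mem_erase h0)]
    have m3 : Move f S T k (insert z (A.erase a), insert a (N.erase b))
        (insert b (A.erase a), insert a (N.erase b)) := by
      refine ⟨hall _ _ ?_ m2.1.hN ?_ ?_ m2.1.cN, b, hN hbN, ?_, ?_,
        Or.inl ⟨z, Finset.mem_insert_self _ _, e3.symm, rfl⟩⟩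
      · exact Finset.insert_subset (hN hbN) ((Finset.erase_subset _ _).trans hA)
      · rw [Finset.disjoint_left]
        intro i hi hi'
        simp only [Finset.mem_insert, Finset.mem_erase] at hi hi'
        rcases hi with rfl | ⟨h3, h4⟩
        · rcases hi' with h5 | h5
          · exact hab h5.symm
          · exact h5.1 rfl
        · rcases hi' with h5 | h5
          · exact h3 h5
          · exact Finset.disjoint_left.1 hd h4 h5.2
      · rw [Finset.card_insert_of_notMem fun h0 => hbA (Finset.mem_of_mem_erase h0),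
          Finset.card_erase_of_mem haA]
        omega
      · simp only [Finset.mem_insert, Finset.mem_erase, not_or]
        exact ⟨hbz, fun h0 => hbA h0.2⟩
      · simp only [Finset.mem_insert, Finset.mem_erase, not_or]
        exact ⟨hab.symm, fun h0 => h0.1 rfl⟩
    -- induction
    have m4 := ih (insert b (A.erase a)) (insert a (N.erase b)) (A₁.erase a) (N₁.erase b)
      (by rw [Finset.card_erase_of_mem ha]; omega) (by rw [Finset.card_erase_of_mem hb]; omega)
      ((Finset.erase_subset_erase _ hA₁).trans (Finset.subset_insert _ _))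
      ((Finset.erase_subset_erase _ hN₁).trans (Finset.subset_insert _ _))
      m3.1.hA m3.1.hN m3.1.dis m3.1.cA m3.1.cN
      (by
        simp only [Finset.mem_insert, Finset.mem_erase, not_or]
        exact ⟨hbz.symm, fun h0 => hzA h0.2⟩)
      (by
        simp only [Finset.mem_insert, Finset.mem_erase, not_or]
        exact ⟨haz.symm, fun h0 => hzN h0.2⟩)
    have f1 : (insert b (A.erase a) \ A₁.erase a) ∪ N₁.erase b = (A \ A₁) ∪ N₁ := by
      ext i
      simp only [Finset.mem_union, Finset.mem_sdiff, Finset.mem_insert, Finset.mem_erase]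
      constructor
      · rintro (⟨rfl | ⟨h3, h4⟩, h5⟩ | ⟨h3, h4⟩)
        · exact Or.inr hb
        · exact Or.inl ⟨h4, fun h6 => h5 ⟨h3, h6⟩⟩
        · exact Or.inr h4
      · rintro (⟨h3, h4⟩ | h3)
        · have hia : i ≠ a := fun h0 => h4 (h0 ▸ ha)
          exact Or.inl ⟨Or.inr ⟨hia, h3⟩, fun h5 => h4 h5.2⟩
        · by_cases hib : i = b
          · refine Or.inl ⟨Or.inl hib, fun h5 => ?_⟩
            exact hbA (hib ▸ hA₁ h5.2)
          · exact Or.inr ⟨hib, h3⟩
    have f2 : (insert a (N.erase b) \ N₁.erase b) ∪ A₁.erase a = (N \ N₁) ∪ A₁ := by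
      ext i
      simp only [Finset.mem_union, Finset.mem_sdiff, Finset.mem_insert, Finset.mem_erase]
      constructor
      · rintro (⟨rfl | ⟨h3, h4⟩, h5⟩ | ⟨h3, h4⟩)
        · exact Or.inr ha
        · exact Or.inl ⟨h4, fun h6 => h5 ⟨h3, h6⟩⟩
        · exact Or.inr h4
      · rintro (⟨h3, h4⟩ | h3)
        · have hib : i ≠ b := fun h0 => h4 (h0 ▸ hb)
          exact Or.inl ⟨Or.inr ⟨hib, h3⟩, fun h5 => h4 h5.2⟩
        · by_cases hia : i = a
          · refine Or.inl ⟨Or.inl hia, fun h5 => ?_⟩
            exact haN (hia ▸ hN₁ h5.2)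
          · exact Or.inr ⟨hia, h3⟩
    rw [f1, f2] at m4
    exact ((Relation.ReflTransGen.single m1).tail m2 |>.tail m3).trans m4

/-- **The case where `B ∩ (-B)` is a ball.** -/
theorem opp_of_ball {f : Finset V → ℝ} (h : Data f) {S T : Finset V} {k : ℕ} (hST : S ⊆ T)
    (hS : f S = 0) (hT : f T = 0)
    (hlow : ∀ X, S ⊆ X → X ⊆ T → ((min k (min #(X \ S) #(T \ X)) : ℕ) : ℝ) ≤ f X)
    (H : ∀ X, S ⊆ X → X ⊆ T → f X ≤ k ∨ f (S ∪ (T \ X)) ≤ k) : Opp f S T := by
  set m := #(T \ S) with hm
  set k' := min k (m / 2) with hk'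
  have hcard : ∀ X, S ⊆ X → X ⊆ T → #(X \ S) + #(T \ X) = m := by
    intro X h1 h2
    have e1 := Finset.card_sdiff_add_card_eq_card h1
    have e2 := Finset.card_sdiff_add_card_eq_card h2
    have e3 := Finset.card_sdiff_add_card_eq_card hST
    omega
  have H' : ∀ X, S ⊆ X → X ⊆ T → f X ≤ k' ∨ f (S ∪ (T \ X)) ≤ k' := by
    intro X h1 h2
    by_cases hk : k ≤ m / 2
    · rw [hk', min_eq_left hk]; exact H X h1 h2
    · left
      rw [hk', min_eq_right (not_le.1 hk).le]
      have u1 := (h.up h1).1
      have u2 := (h.up h2).2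
      rw [hS, zero_add] at u1
      rw [hT, zero_add] at u2
      have := hcard X h1 h2
      by_cases hc : #(X \ S) ≤ m / 2
      · exact u1.trans (by exact_mod_cast hc)
      · exact u2.trans (by exact_mod_cast (by omega : #(T \ X) ≤ m / 2))
  have hall : ∀ A N : Finset V, A ⊆ T \ S → N ⊆ T \ S → Disjoint A N → #A = k' → #N = k' →
      Pt f S T k' A N := by
    have aux : ∀ A N : Finset V, A ⊆ T \ S → N ⊆ T \ S → #A = k' → #N = k' →
        ∀ X, S ∪ A ⊆ X → X ⊆ T \ N → (k' : ℝ) ≤ f X := by
      intro A N hA hN cA cN X h1 h2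
      have hX1 : S ⊆ X := Finset.subset_union_left.trans h1
      have hX2 : X ⊆ T := h2.trans Finset.sdiff_subset
      refine le_trans ?_ (hlow X hX1 hX2)
      have a1 : k' ≤ #(X \ S) := by
        rw [← cA]
        exact Finset.card_le_card fun i hi => Finset.mem_sdiff.2
          ⟨h1 (Finset.mem_union_right _ hi), (Finset.mem_sdiff.1 (hA hi)).2⟩
      have a2 : k' ≤ #(T \ X) := by
        rw [← cN]
        exact Finset.card_le_card fun i hi => Finset.mem_sdiff.2
          ⟨(Finset.mem_sdiff.1 (hN hi)).1, fun h3 => (Finset.mem_sdiff.1 (h2 h3)).2 hi⟩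
      have a3 : k' ≤ min k (min #(X \ S) #(T \ X)) :=
        le_min (min_le_left _ _) (le_min a1 a2)
      exact_mod_cast a3
    intro A N hA hN hd cA cN
    exact ⟨hA, hN, hd, cA, cN, aux A N hA hN cA cN, aux N A hN hA cN cA, fun X h1 h2 =>
      H' X (Finset.subset_union_left.trans h1) (h2.trans Finset.sdiff_subset)⟩
  have hkm : 2 * k' ≤ m := by
    have : k' ≤ m / 2 := min_le_right _ _
    omega
  obtain ⟨A, hA, cA⟩ := Finset.exists_subset_card_eq (show k' ≤ #(T \ S) by omega)
  obtain ⟨N, hN, cN⟩ := Finset.exists_subset_card_eq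
    (show k' ≤ #((T \ S) \ A) by rw [Finset.card_sdiff_of_subset hA]; omega)
  have hN' : N ⊆ T \ S := hN.trans Finset.sdiff_subset
  have hd : Disjoint A N := by
    rw [Finset.disjoint_left]
    exact fun i hi hi' => (Finset.mem_sdiff.1 (hN hi')).2 hi
  have hp := hall A N hA hN' hd cA cN
  by_cases hz : ∃ z ∈ T \ S, z ∉ A ∧ z ∉ N
  · obtain ⟨z, hz, hzA, hzN⟩ := hz
    have := path_aux hall hz k' A N A N cA cN (Finset.Subset.refl _) (Finset.Subset.refl _) hA hN'
      hd cA cN hzA hzN
    rw [Finset.sdiff_self, Finset.sdiff_self, Finset.empty_union, Finset.empty_union] at this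
    exact opp_of_path h hST hS hT hp this
  · push Not at hz
    have s1 := sub_aux hST hA hN' hd
    have s2 := sub_aux hST hN' hA hd.symm
    have e1 : S ∪ A = T \ N := by
      refine Finset.Subset.antisymm s1 fun i hi => ?_
      obtain ⟨h1, h2⟩ := Finset.mem_sdiff.1 hi
      by_cases hiS : i ∈ S
      · exact Finset.mem_union_left _ hiS
      · by_contra h3
        exact h2 (hz i (Finset.mem_sdiff.2 ⟨h1, hiS⟩) fun h4 => h3 (Finset.mem_union_right _ h4))
    have e2 : S ∪ N = T \ A := by
      refine Finset.Subset.antisymm s2 fun i hi => ?_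
      obtain ⟨h1, h2⟩ := Finset.mem_sdiff.1 hi
      by_cases hiS : i ∈ S
      · exact Finset.mem_union_left _ hiS
      · exact Finset.mem_union_right _ (hz i (Finset.mem_sdiff.2 ⟨h1, hiS⟩) h2)
    refine opp_of_chains h hS hT hA hN' ?_ ?_ ?_ ?_ hd (e1 ▸ MChain.refl _) (e2 ▸ MChain.refl _)
    · rw [cA]; exact hp.lo _ (Finset.Subset.refl _) s1
    · rw [cN]; exact hp.lo _ s1 (Finset.Subset.refl _)
    · rw [cN]; exact hp.hi _ (Finset.Subset.refl _) s2
    · rw [cA]; exact hp.hi _ s2 (Finset.Subset.refl _)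

/-- irreducible components in which no sum takes values `≥ 2` and `≤ -2` -/
theorem opp_of_one {f : Finset V → ℝ} (h : Data f) {S T : Finset V} (hir : Irred f S T)
    (H : ∀ X, S ⊆ X → X ⊆ T → f X ≤ 1 ∨ f (S ∪ (T \ X)) ≤ 1) : Opp f S T := by
  refine opp_of_ball h (k := 1) hir.1.1 hir.2.1 hir.2.2.1 (fun X h1 h2 => ?_)
    (fun X h1 h2 => by simpa using H X h1 h2)
  rcases eq_or_ne S X with rfl | n1
  · simp [h.nonneg]
  rcases eq_or_ne X T with rfl | n2
  · simp [h.nonneg]
  have h3 := h.one_le (hir.2.2.2 X (lt_of_le_of_ne h1 n1) (lt_of_le_of_ne h2 n2))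
  refine le_trans ?_ h3
  have : min 1 (min #(X \ S) #(T \ X)) ≤ 1 := min_le_left _ _
  exact_mod_cast this

lemma Data.two_le {f : Finset V → ℝ} (h : Data f) {X : Finset V} (hX : 1 < f X) : 2 ≤ f X := by
  obtain ⟨n, hn⟩ := h.int X
  rw [hn] at hX ⊢
  have : 1 < n := by exact_mod_cast hX
  exact_mod_cast this

lemma Data.le_one {f : Finset V → ℝ} (h : Data f) {X : Finset V} (hX : ¬ 2 ≤ f X) : f X ≤ 1 := by
  by_contra h1
  exact hX (h.two_le (not_le.1 h1))

lemma small_aux {f : Finset V → ℝ} (h : Data f) {S T : Finset V} (hir : Irred f S T)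
    {A D : Finset V} (hA : A ⊆ T \ S) (hD : D ⊆ T \ S) (hAD : Disjoint A D) (hc : S ∪ A ∪ D = T)
    (cA : #A = 2) (cD : #D = 2 ∨ #D = 3) (vA : 2 ≤ f (S ∪ A)) (vD : 2 ≤ f (S ∪ D)) :
    Opp f S T := by
  obtain ⟨hss, hS, hT, hpos⟩ := hir
  have hST := hss.1
  have memT : ∀ i, i ∈ T ↔ i ∈ S ∨ i ∈ A ∨ i ∈ D := fun i => by
    rw [← hc]; simp only [Finset.mem_union, or_assoc]
  have hSA : ∀ i ∈ S, i ∉ A := fun i hi hi' => (Finset.mem_sdiff.1 (hA hi')).2 hi
  have hSD : ∀ i ∈ S, i ∉ D := fun i hi hi' => (Finset.mem_sdiff.1 (hD hi')).2 hi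
  have hAD' : ∀ i ∈ A, i ∉ D := fun i hi => Finset.disjoint_left.1 hAD hi
  have eA : T \ A = S ∪ D := by
    ext i
    simp only [Finset.mem_sdiff, Finset.mem_union, memT i]
    constructor
    · rintro ⟨h1 | h1 | h1, h2⟩
      · exact Or.inl h1
      · exact absurd h1 h2
      · exact Or.inr h1
    · rintro (h1 | h1)
      · exact ⟨Or.inl h1, hSA i h1⟩
      · exact ⟨Or.inr (Or.inr h1), fun h2 => hAD' i h2 h1⟩
  rcases cD with cD | cD
  · have eD : T \ D = S ∪ A := by
      ext i
      simp only [Finset.mem_sdiff, Finset.mem_union, memT i]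
      constructor
      · rintro ⟨h1 | h1 | h1, h2⟩
        · exact Or.inl h1
        · exact Or.inr h1
        · exact absurd h1 h2
      · rintro (h1 | h1)
        · exact ⟨Or.inl h1, hSD i h1⟩
        · exact ⟨Or.inr (Or.inl h1), hAD' i h1⟩
    refine opp_of_chains h hS hT hA hD ?_ ?_ ?_ ?_ hAD (eD ▸ MChain.refl _) (eA ▸ MChain.refl _)
    · rw [cA]; exact_mod_cast vA
    · rw [cD, eD]; exact_mod_cast vA
    · rw [cD]; exact_mod_cast vD
    · rw [cA, eA]; exact_mod_cast vD
  · -- three elements
    obtain ⟨c, d, e, hcd, hce, hde, rfl⟩ := Finset.card_eq_three.1 cD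
    have hposI : ∀ X, S ⊆ X → X ⊆ T → (∃ i ∈ X, i ∉ S) → (∃ i ∈ T, i ∉ X) → 1 ≤ f X := by
      intro X h1 h2 ⟨i, hi, hi'⟩ ⟨j, hj, hj'⟩
      exact h.one_le (hpos X ⟨h1, fun h3 => hi' (h3 hi)⟩ ⟨h2, fun h3 => hj' (h3 hj)⟩)
    set C := S ∪ A with hC
    have hCT : C ⊆ T := by rw [← hc]; exact Finset.subset_union_left
    -- first count
    have P : ∀ z ∈ ({c, d, e} : Finset V), ∀ w ∈ ({c, d, e} : Finset V), z ≠ w →
        2 ≤ f (insert z C) ∨ 2 ≤ f (insert w C) := by
      intro z hz w hw hzw
      by_contra hcon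
      push Not at hcon
      have h1 := h.le_one (not_le.2 hcon.1)
      have h2 := h.le_one (not_le.2 hcon.2)
      have h3 := h.sub (insert z C) (insert w C)
      have hzC : z ∉ C := by
        intro h0
        rcases Finset.mem_union.1 h0 with h4 | h4
        · exact hSD z h4 hz
        · exact hAD' z h4 hz
      have hwC : w ∉ C := by
        intro h0
        rcases Finset.mem_union.1 h0 with h4 | h4
        · exact hSD w h4 hw
        · exact hAD' w h4 hw
      have e1 : insert z C ∩ insert w C = C := by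
        ext i
        simp only [Finset.mem_inter, Finset.mem_insert]
        constructor
        · rintro ⟨h4 | h4, h5 | h5⟩
          · exact absurd (h4.symm.trans h5) hzw
          · exact h5
          · exact h4
          · exact h4
        · exact fun h4 => ⟨Or.inr h4, Or.inr h4⟩
      have h4 : 1 ≤ f (insert z C ∪ insert w C) := by
        refine hposI _ ?_ ?_ ?_ ?_
        · exact (Finset.subset_union_left.trans (Finset.subset_insert _ _)).trans
            Finset.subset_union_left
        · exact Finset.union_subset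
            (Finset.insert_subset ((memT z).2 (Or.inr (Or.inr hz))) hCT)
            (Finset.insert_subset ((memT w).2 (Or.inr (Or.inr hw))) hCT)
        · exact ⟨z, Finset.mem_union_left _ (Finset.mem_insert_self _ _), fun h5 => hSD z h5 hz⟩
        · -- the third element
          obtain ⟨u, hu, huz, huw⟩ : ∃ u ∈ ({c, d, e} : Finset V), u ≠ z ∧ u ≠ w := by
            simp only [Finset.mem_insert, Finset.mem_singleton] at hz hw ⊢
            rcases hz with rfl | rfl | rfl <;> rcases hw with rfl | rfl | rfl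
            · exact absurd rfl hzw
            · exact ⟨e, Or.inr (Or.inr rfl), hce.symm, hde.symm⟩
            · exact ⟨d, Or.inr (Or.inl rfl), hcd.symm, hde⟩
            · exact ⟨e, Or.inr (Or.inr rfl), hde.symm, hce.symm⟩
            · exact absurd rfl hzw
            · exact ⟨c, Or.inl rfl, hcd, hce⟩
            · exact ⟨d, Or.inr (Or.inl rfl), hde, hcd.symm⟩
            · exact ⟨c, Or.inl rfl, hce, hcd⟩
            · exact absurd rfl hzw
          refine ⟨u, (memT u).2 (Or.inr (Or.inr hu)), fun h5 => ?_⟩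
          rcases Finset.mem_union.1 h5 with h6 | h6
          · rcases Finset.mem_insert.1 h6 with h7 | h7
            · exact huz h7
            · rcases Finset.mem_union.1 h7 with h8 | h8
              · exact hSD u h8 hu
              · exact hAD' u h8 hu
          · rcases Finset.mem_insert.1 h6 with h7 | h7
            · exact huw h7
            · rcases Finset.mem_union.1 h7 with h8 | h8
              · exact hSD u h8 hu
              · exact hAD' u h8 hu
      rw [e1] at h3
      linarith
    -- second count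
    have Q : ∀ z ∈ ({c, d, e} : Finset V), ∀ w ∈ ({c, d, e} : Finset V), z ≠ w →
        2 ≤ f (S ∪ ({c, d, e} : Finset V).erase z) ∨
        2 ≤ f (S ∪ ({c, d, e} : Finset V).erase w) := by
      intro z hz w hw hzw
      by_contra hcon
      push Not at hcon
      have h1 := h.le_one (not_le.2 hcon.1)
      have h2 := h.le_one (not_le.2 hcon.2)
      have h3 := h.sub (S ∪ ({c, d, e} : Finset V).erase z) (S ∪ ({c, d, e} : Finset V).erase w)
      have e1 : (S ∪ ({c, d, e} : Finset V).erase z) ∪ (S ∪ ({c, d, e} : Finset V).erase w) =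
          S ∪ {c, d, e} := by
        ext i
        simp only [Finset.mem_union, Finset.mem_erase]
        constructor
        · rintro ((h4 | h4) | (h4 | h4))
          · exact Or.inl h4
          · exact Or.inr h4.2
          · exact Or.inl h4
          · exact Or.inr h4.2
        · rintro (h4 | h4)
          · exact Or.inl (Or.inl h4)
          · by_cases hiz : i = z
            · exact Or.inr (Or.inr ⟨fun h5 => hzw (hiz ▸ h5), h4⟩)
            · exact Or.inl (Or.inr ⟨hiz, h4⟩)
      have h4 : 1 ≤ f ((S ∪ ({c, d, e} : Finset V).erase z) ∩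
          (S ∪ ({c, d, e} : Finset V).erase w)) := by
        obtain ⟨u, hu, huz, huw⟩ : ∃ u ∈ ({c, d, e} : Finset V), u ≠ z ∧ u ≠ w := by
          simp only [Finset.mem_insert, Finset.mem_singleton] at hz hw ⊢
          rcases hz with rfl | rfl | rfl <;> rcases hw with rfl | rfl | rfl
          · exact absurd rfl hzw
          · exact ⟨e, Or.inr (Or.inr rfl), hce.symm, hde.symm⟩
          · exact ⟨d, Or.inr (Or.inl rfl), hcd.symm, hde⟩
          · exact ⟨e, Or.inr (Or.inr rfl), hde.symm, hce.symm⟩
          · exact absurd rfl hzw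
          · exact ⟨c, Or.inl rfl, hcd, hce⟩
          · exact ⟨d, Or.inr (Or.inl rfl), hde, hcd.symm⟩
          · exact ⟨c, Or.inl rfl, hce, hcd⟩
          · exact absurd rfl hzw
        refine hposI _ ?_ ?_ ?_ ?_
        · exact Finset.subset_inter Finset.subset_union_left Finset.subset_union_left
        · refine Finset.inter_subset_left.trans (Finset.union_subset hST
            ((Finset.erase_subset _ _).trans (hD.trans Finset.sdiff_subset)))
        · exact ⟨u, Finset.mem_inter.2 ⟨Finset.mem_union_right _ (Finset.mem_erase.2 ⟨huz, hu⟩),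
            Finset.mem_union_right _ (Finset.mem_erase.2 ⟨huw, hu⟩)⟩, fun h5 => hSD u h5 hu⟩
        · refine ⟨z, (memT z).2 (Or.inr (Or.inr hz)), fun h5 => ?_⟩
          rcases Finset.mem_union.1 (Finset.mem_inter.1 h5).1 with h6 | h6
          · exact hSD z h6 hz
          · exact (Finset.mem_erase.1 h6).1 rfl
      rw [e1] at h3
      linarith
    obtain ⟨z, hz, hzP, hzQ⟩ : ∃ z ∈ ({c, d, e} : Finset V), 2 ≤ f (insert z C) ∧
        2 ≤ f (S ∪ ({c, d, e} : Finset V).erase z) := by
      have ic : c ∈ ({c, d, e} : Finset V) := by simp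
      have id' : d ∈ ({c, d, e} : Finset V) := by simp
      have ie : e ∈ ({c, d, e} : Finset V) := by simp
      by_contra hcon
      push Not at hcon
      have q1 := fun h0 => not_le.2 (hcon c ic h0)
      have q2 := fun h0 => not_le.2 (hcon d id' h0)
      have q3 := fun h0 => not_le.2 (hcon e ie h0)
      have p1 := P c ic d id' hcd
      have p2 := P c ic e ie hce
      have p3 := P d id' e ie hde
      have r1 := Q c ic d id' hcd
      have r2 := Q c ic e ie hce
      have r3 := Q d id' e ie hde
      tauto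
    set N := ({c, d, e} : Finset V).erase z with hN
    have hND : N ⊆ {c, d, e} := Finset.erase_subset _ _
    have hNs : N ⊆ T \ S := hND.trans hD
    have cN : #N = 2 := by rw [hN, Finset.card_erase_of_mem hz, cD]
    have hAN : Disjoint A N := hAD.mono_right hND
    have hzC : z ∉ C := by
      intro h0
      rcases Finset.mem_union.1 h0 with h4 | h4
      · exact hSD z h4 hz
      · exact hAD' z h4 hz
    have hzN : z ∉ N := fun h0 => (Finset.mem_erase.1 h0).1 rfl
    have eN : T \ N = insert z C := by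
      ext i
      simp only [Finset.mem_sdiff, Finset.mem_insert, hC, Finset.mem_union]
      constructor
      · rintro ⟨h1, h2⟩
        rcases (memT i).1 h1 with h3 | h3 | h3
        · exact Or.inr (Or.inl h3)
        · exact Or.inr (Or.inr h3)
        · left
          by_contra h4
          exact h2 (Finset.mem_erase.2 ⟨h4, h3⟩)
      · rintro (rfl | h1 | h1)
        · exact ⟨(memT i).2 (Or.inr (Or.inr hz)), hzN⟩
        · exact ⟨(memT i).2 (Or.inl h1), fun h2 => hSD i h1 (hND h2)⟩
        · exact ⟨(memT i).2 (Or.inr (Or.inl h1)), fun h2 => hAD' i h1 (hND h2)⟩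
    have eA' : T \ A = insert z (S ∪ N) := by
      rw [eA]
      ext i
      simp only [Finset.mem_insert, Finset.mem_union]
      constructor
      · rintro (h1 | h1)
        · exact Or.inr (Or.inl h1)
        · by_cases hiz : i = z
          · exact Or.inl hiz
          · exact Or.inr (Or.inr (Finset.mem_erase.2 ⟨hiz, by simpa using h1⟩))
      · rintro (rfl | h1 | h1)
        · exact Or.inr (by simpa using hz)
        · exact Or.inl h1
        · exact Or.inr (by simpa using hND h1)
    have v1 : f C ≤ 2 := by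
      have h1 := (h.up (Finset.subset_union_left (s₁ := S) (s₂ := A))).1
      have h2 : Disjoint A S := by
        rw [Finset.disjoint_left]; exact fun i hi hi' => hSA i hi' hi
      rw [hS, Finset.union_sdiff_left, Finset.sdiff_eq_self_of_disjoint h2, cA] at h1
      push_cast at h1
      linarith
    have v2 : f (insert z C) ≤ 2 := by
      have h1 := (h.up (Finset.sdiff_subset (s := T) (t := N))).2
      rw [hT, Finset.sdiff_sdiff_eq_self (hNs.trans Finset.sdiff_subset), cN, eN] at h1
      push_cast at h1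
      linarith
    have v3 : f (S ∪ N) ≤ 2 := by
      have h1 := (h.up (Finset.subset_union_left (s₁ := S) (s₂ := N))).1
      have h2 : Disjoint N S := by
        rw [Finset.disjoint_left]; exact fun i hi hi' => hSD i hi' (hND hi)
      rw [hS, Finset.union_sdiff_left, Finset.sdiff_eq_self_of_disjoint h2, cN] at h1
      push_cast at h1
      linarith
    have v4 : f (S ∪ {c, d, e}) ≤ 2 := by
      have h1 := (h.up (Finset.sdiff_subset (s := T) (t := A))).2
      rw [hT, Finset.sdiff_sdiff_eq_self (hA.trans Finset.sdiff_subset), cA, eA] at h1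
      push_cast at h1
      linarith
    refine opp_of_chains h hS hT hA hNs ?_ ?_ ?_ ?_ hAN ?_ ?_
    · rw [cA]; exact_mod_cast vA
    · rw [cN, eN]; exact_mod_cast hzP
    · rw [cN]; exact_mod_cast hzQ
    · rw [cA, eA]; exact_mod_cast vD
    · rw [eN]
      refine MChain.step (MChain.refl _) hzC ?_
      have : f (insert z C) = f C := by linarith
      rw [this]; simp
    · rw [eA']
      refine MChain.step (MChain.refl _) ?_ ?_
      · intro h0
        rcases Finset.mem_union.1 h0 with h1 | h1
        · exact hSD z h1 hz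
        · exact hzN h1
      · have h1 : f (insert z (S ∪ N)) = f (S ∪ N) := by
          rw [← eA', eA]
          linarith
        rw [h1]; simp

/-- irreducible components with at most five elements -/
theorem opp_small {f : Finset V → ℝ} (h : Data f) {S T : Finset V} (hir : Irred f S T)
    (hm : #(T \ S) ≤ 5) : Opp f S T := by
  by_cases H : ∀ X, S ⊆ X → X ⊆ T → f X ≤ 1 ∨ f (S ∪ (T \ X)) ≤ 1
  · exact opp_of_one h hir H
  push Not at H
  obtain ⟨X, h1, h2, h3, h4⟩ := H
  have hST := hir.1.1
  have h3' := h.two_le h3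
  have h4' := h.two_le h4
  have e1 := Finset.card_sdiff_add_card_eq_card h1
  have e2 := Finset.card_sdiff_add_card_eq_card h2
  have e3 := Finset.card_sdiff_add_card_eq_card hST
  have u1 := (h.up h1).1
  have u2 := (h.up h2).2
  rw [hir.2.1, zero_add] at u1
  rw [hir.2.2.1, zero_add] at u2
  have c1 : 2 ≤ #(X \ S) := by exact_mod_cast h3'.trans u1
  have c2 : 2 ≤ #(T \ X) := by exact_mod_cast h3'.trans u2
  have eX : S ∪ (X \ S) = X := Finset.union_sdiff_of_subset h1
  have s1 : X \ S ⊆ T \ S := Finset.sdiff_subset_sdiff h2 (Finset.Subset.refl _)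
  have s2 : T \ X ⊆ T \ S := Finset.sdiff_subset_sdiff (Finset.Subset.refl _) h1
  have hd : Disjoint (X \ S) (T \ X) := by
    rw [Finset.disjoint_left]
    exact fun i hi hi' => (Finset.mem_sdiff.1 hi').2 (Finset.mem_sdiff.1 hi).1
  have hc : S ∪ (X \ S) ∪ (T \ X) = T := by rw [eX, Finset.union_sdiff_of_subset h2]
  rcases Nat.lt_or_ge 2 #(X \ S) with h5 | h5
  · refine small_aux h hir s2 s1 hd.symm ?_ (by omega) (Or.inr (by omega)) h4' ?_
    · rw [← hc]
      ext i
      simp only [Finset.mem_union, Finset.mem_sdiff]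
      tauto
    · rw [eX]; exact h3'
  · refine small_aux h hir s1 s2 hd hc (by omega) (by omega) ?_ h4'
    rw [eX]; exact h3'

/-- from chains to opposite vertices -/
lemma opposite_of_opp {f : Finset V → ℝ} (h : Data f) (ho : Opp f ∅ Finset.univ) :
    ∃ v ∈ Set.extremePoints ℝ (base f), -v ∈ Set.extremePoints ℝ (base f) := by
  obtain ⟨x, h1, h2⟩ := ho
  exact ⟨x, h1.extreme h.sub h.empty, h2.extreme h.sub h.empty⟩

end Pool.Agent.H54.Frank
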