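import Mathlib

/-!
# Base polyhedra: chains of sets and greedy vertices
-/

set_option autoImplicit false
set_option maxHeartbeats 4000000

open Finset

namespace Pool.Agent.H54.Frank

variable {V : Type*} [Fintype V] [DecidableEq V]

/-- The base polyhedron `B(f)` of a set function `f`. -/
def base (f : Finset V → ℝ) : Set (V → ℝ) :=
  {x | (∀ X : Finset V, ∑ i ∈ X, x i ≤ f X) ∧ ∑ i, x i = f Finset.univ}

/-- `f` is submodular. -/
def Submodular (f : Finset V → ℝ) : Prop :=
  ∀ X Y : Finset V, f (X ∪ Y) + f (X ∩ Y) ≤ f X + f Y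

/-- There is a maximal chain from `S` to `T` along which the marginals of `f` are given by `x`. -/
inductive MChain (f : Finset V → ℝ) (x : V → ℝ) : Finset V → Finset V → Prop
  | refl (S : Finset V) : MChain f x S S
  | step {S X : Finset V} {i : V} : MChain f x S X → i ∉ X → f (insert i X) - f X = x i →
      MChain f x S (insert i X)

omit [Fintype V] in
lemma MChain.subset {f : Finset V → ℝ} {x : V → ℝ} {S T : Finset V} (h : MChain f x S T) :
    S ⊆ T := by
  induction h with
  | refl => exact Finset.Subset.refl _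
  | step _ _ _ ih => exact ih.trans (Finset.subset_insert _ _)

omit [Fintype V] in
lemma MChain.trans {f : Finset V → ℝ} {x : V → ℝ} {S T U : Finset V} (h : MChain f x S T)
    (h' : MChain f x T U) : MChain f x S U := by
  induction h' with
  | refl => exact h
  | step _ hi hx ih => exact MChain.step ih hi hx

omit [Fintype V] in
lemma MChain.congr {f : Finset V → ℝ} {x y : V → ℝ} {S T : Finset V} (h : MChain f x S T)
    (hxy : ∀ i ∈ T, i ∉ S → x i = y i) : MChain f y S T := by
  induction h with
  | refl => exact MChain.refl _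
  | @step X i h0 hi hx ih =>
    refine MChain.step (ih fun j hj hjS => hxy j (Finset.mem_insert_of_mem hj) hjS) hi ?_
    rw [hx]
    exact hxy i (Finset.mem_insert_self _ _) fun h1 => hi (h0.subset h1)

omit [Fintype V] in
lemma MChain.sum {f : Finset V → ℝ} {x : V → ℝ} {S T : Finset V} (h : MChain f x S T) :
    ∑ i ∈ T \ S, x i = f T - f S := by
  induction h with
  | refl => simp
  | @step X i h0 hi hx ih =>
    have : insert i X \ S = insert i (X \ S) := by
      ext j
      simp only [Finset.mem_sdiff, Finset.mem_insert]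
      constructor
      · rintro ⟨h1 | h1, h2⟩
        · exact Or.inl h1
        · exact Or.inr ⟨h1, h2⟩
      · rintro (h1 | ⟨h1, h2⟩)
        · exact ⟨Or.inl h1, by rw [h1]; exact fun h3 => hi (h0.subset h3)⟩
        · exact ⟨Or.inr h1, h2⟩
    rw [this, Finset.sum_insert (by simp [hi]), ih, ← hx]
    ring

omit [Fintype V] in
/-- Any vector can be changed on `T \ S` so that a chain from `S` to `T` follows it. -/
lemma exists_chain (f : Finset V → ℝ) (x₀ : V → ℝ) {S T : Finset V} (hST : S ⊆ T) :
    ∃ x : V → ℝ, (∀ i, i ∈ S ∨ i ∉ T → x i = x₀ i) ∧ MChain f x S T := by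
  obtain ⟨D, rfl, hD⟩ : ∃ D, T = S ∪ D ∧ Disjoint S D :=
    ⟨T \ S, by rw [Finset.union_sdiff_of_subset hST], Finset.disjoint_sdiff⟩
  clear hST
  induction D using Finset.induction_on with
  | empty => exact ⟨x₀, fun _ _ => rfl, by rw [Finset.union_empty]; exact MChain.refl _⟩
  | insert a D ha ih =>
    rw [Finset.disjoint_insert_right] at hD
    obtain ⟨x, hx, hc⟩ := ih hD.2
    have ha' : a ∉ S ∪ D := by
      simp only [Finset.mem_union, not_or]; exact ⟨hD.1, ha⟩
    refine ⟨Function.update x a (f (insert a (S ∪ D)) - f (S ∪ D)), fun i hi => ?_, ?_⟩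
    · have hia : i ≠ a := by
        rintro rfl
        rcases hi with h | h
        · exact hD.1 h
        · exact h (Finset.mem_union_right _ (Finset.mem_insert_self _ _))
      rw [Function.update_of_ne hia]
      refine hx i (hi.imp id fun h h' => h ?_)
      rcases Finset.mem_union.1 h' with h1 | h1
      · exact Finset.mem_union_left _ h1
      · exact Finset.mem_union_right _ (Finset.mem_insert_of_mem h1)
    · rw [Finset.union_insert]
      refine MChain.step (hc.congr fun i hi _ => ?_) ha' (by rw [Function.update_self])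
      rw [Function.update_of_ne]
      rintro rfl
      exact ha' hi

omit [Fintype V] in
lemma MChain.le {f : Finset V → ℝ} (hf : Submodular f) (h0 : f ∅ = 0) {x : V → ℝ}
    {T : Finset V} (h : MChain f x ∅ T) : ∀ Y ⊆ T, ∑ i ∈ Y, x i ≤ f Y := by
  have key : ∀ S T : Finset V, MChain f x S T → S = ∅ → ∀ Y ⊆ T, ∑ i ∈ Y, x i ≤ f Y := by
    intro S T h
    induction h with
    | refl =>
      rintro rfl Y hY
      rw [Finset.subset_empty.1 hY, Finset.sum_empty, h0]
    | @step X i hc hi hx ih =>
      rintro rfl Y hY
      by_cases hiY : i ∈ Y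
      · have h1 : Y.erase i ⊆ X := by
          intro j hj
          rcases Finset.mem_insert.1 (hY (Finset.mem_of_mem_erase hj)) with h2 | h2
          · exact absurd h2 (Finset.ne_of_mem_erase hj)
          · exact h2
        have h2 := ih rfl _ h1
        have h3 := hf Y X
        have e1 : Y ∪ X = insert i X := by
          ext j
          simp only [Finset.mem_union, Finset.mem_insert]
          constructor
          · rintro (h4 | h4)
            · exact Finset.mem_insert.1 (hY h4)
            · exact Or.inr h4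
          · rintro (h4 | h4)
            · exact Or.inl (h4 ▸ hiY)
            · exact Or.inr h4
        have e2 : Y ∩ X = Y.erase i := by
          ext j
          simp only [Finset.mem_inter, Finset.mem_erase]
          constructor
          · rintro ⟨h4, h5⟩
            exact ⟨fun h6 => hi (h6 ▸ h5), h4⟩
          · rintro ⟨h4, h5⟩
            exact ⟨h5, h1 (Finset.mem_erase.2 ⟨h4, h5⟩)⟩
        rw [e1, e2] at h3
        rw [← Finset.add_sum_erase _ _ hiY]
        linarith
      · refine ih rfl Y fun j hj => ?_
        rcases Finset.mem_insert.1 (hY hj) with h2 | h2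
        · exact absurd (h2 ▸ hj) hiY
        · exact h2
  exact key ∅ T h rfl

lemma MChain.mem_base {f : Finset V → ℝ} (hf : Submodular f) (h0 : f ∅ = 0) {x : V → ℝ}
    (h : MChain f x ∅ Finset.univ) : x ∈ base f := by
  refine ⟨fun X => h.le hf h0 X (Finset.subset_univ _), ?_⟩
  have := h.sum
  rwa [Finset.sdiff_empty, h0, sub_zero] at this

/-- **Greedy vertices.** -/
lemma MChain.extreme {f : Finset V → ℝ} (hf : Submodular f) (h0 : f ∅ = 0) {x : V → ℝ}
    (h : MChain f x ∅ Finset.univ) : x ∈ Set.extremePoints ℝ (base f) := by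
  refine ⟨h.mem_base hf h0, fun y hy z hz hxyz => ?_⟩
  obtain ⟨a, b, ha, hb, hab, hx⟩ := hxyz
  have hxi : ∀ i, x i = a * y i + b * z i := fun i => by
    rw [← hx]; simp
  have key : ∀ S T : Finset V, MChain f x S T → S = ∅ →
      (∀ i ∈ T, y i = x i) ∧ ∑ i ∈ T, x i = f T := by
    intro S T h
    induction h with
    | refl =>
      rintro rfl
      exact ⟨fun i hi => absurd hi (Finset.notMem_empty _), by rw [Finset.sum_empty, h0]⟩
    | @step X i hc hi hxX ih =>
      rintro rfl
      obtain ⟨h1, h2⟩ := ih rfl
      have h3 : ∑ j ∈ insert i X, x j = f (insert i X) := by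
        rw [Finset.sum_insert hi, h2, ← hxX]; ring
      have h4 := hy.1 (insert i X)
      have h5 := hz.1 (insert i X)
      have h6 : ∑ j ∈ insert i X, x j =
          a * ∑ j ∈ insert i X, y j + b * ∑ j ∈ insert i X, z j := by
        rw [Finset.mul_sum, Finset.mul_sum, ← Finset.sum_add_distrib]
        exact Finset.sum_congr rfl fun j _ => hxi j
      have h7 : ∑ j ∈ insert i X, y j = f (insert i X) := by
        refine le_antisymm h4 ?_
        by_contra hcon
        push Not at hcon
        have : a * ∑ j ∈ insert i X, y j + b * ∑ j ∈ insert i X, z j < f (insert i X) := by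
          have e1 : a * ∑ j ∈ insert i X, y j < a * f (insert i X) :=
            mul_lt_mul_of_pos_left hcon ha
          have e2 : b * ∑ j ∈ insert i X, z j ≤ b * f (insert i X) :=
            mul_le_mul_of_nonneg_left h5 hb.le
          have e3 : a * f (insert i X) + b * f (insert i X) = f (insert i X) := by
            rw [← add_mul, hab, one_mul]
          linarith
        rw [← h6, h3] at this
        exact lt_irrefl _ this
      have h8 : ∑ j ∈ X, y j = ∑ j ∈ X, x j := Finset.sum_congr rfl h1
      refine ⟨fun j hj => ?_, h3⟩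
      rcases Finset.mem_insert.1 hj with rfl | h9
      · rw [Finset.sum_insert hi, h8, h2] at h7
        rw [Finset.sum_insert hi, h2] at h3
        linarith
      · exact h1 j h9
  have h1 := (key ∅ Finset.univ h rfl).1
  exact funext fun i => h1 i (Finset.mem_univ _)

/-- every marginal of `f` is a coordinate of a vertex -/
lemma exists_vertex {f : Finset V → ℝ} (hf : Submodular f) (h0 : f ∅ = 0) {X : Finset V} {i : V}
    (hi : i ∉ X) : ∃ x ∈ Set.extremePoints ℝ (base f), x i = f (insert i X) - f X := by
  obtain ⟨x₁, -, c1⟩ := exists_chain f 0 (Finset.empty_subset X)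
  set x₂ := Function.update x₁ i (f (insert i X) - f X) with hx₂
  have c2 : MChain f x₂ ∅ (insert i X) := by
    refine MChain.step (c1.congr fun j hj _ => ?_) hi (by rw [hx₂, Function.update_self])
    rw [hx₂, Function.update_of_ne]
    rintro rfl
    exact hi hj
  obtain ⟨x₃, h3, c3⟩ := exists_chain f x₂ (Finset.subset_univ (insert i X))
  have c4 : MChain f x₃ ∅ Finset.univ :=
    (c2.congr fun j hj _ => (h3 j (Or.inl hj)).symm).trans c3
  refine ⟨x₃, c4.extreme hf h0, ?_⟩
  rw [h3 i (Or.inl (Finset.mem_insert_self _ _)), hx₂, Function.update_self]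

/-- The hypotheses of Frank's question, in terms of `f`. -/
structure Data (f : Finset V → ℝ) : Prop where
  sub : Submodular f
  empty : f ∅ = 0
  univ : f Finset.univ = 0
  nonneg : ∀ X, 0 ≤ f X
  marg : ∀ X i, i ∉ X → f (insert i X) - f X = 0 ∨ f (insert i X) - f X = 1 ∨
    f (insert i X) - f X = -1

lemma data_of {f : Finset V → ℝ} (hf : Submodular f) (h0 : f ∅ = 0)
    (hv : ∀ v ∈ Set.extremePoints ℝ (base f), ∀ i, v i = 0 ∨ v i = 1 ∨ v i = -1)
    (hz : (0 : V → ℝ) ∈ base f) : Data f where
  sub := hf
  empty := h0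
  univ := by have := hz.2; simpa using this.symm
  nonneg X := by have := hz.1 X; simpa using this
  marg X i hi := by
    obtain ⟨x, hx, hxi⟩ := exists_vertex hf h0 hi
    rw [← hxi]
    exact hv x hx i

lemma Data.int {f : Finset V → ℝ} (h : Data f) (X : Finset V) : ∃ n : ℤ, f X = n := by
  induction X using Finset.induction_on with
  | empty => exact ⟨0, by rw [h.empty]; simp⟩
  | insert a X ha ih =>
    obtain ⟨n, hn⟩ := ih
    rcases h.marg X a ha with h1 | h1 | h1
    · exact ⟨n, by linarith⟩
    · exact ⟨n + 1, by push_cast; linarith⟩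
    · exact ⟨n - 1, by push_cast; linarith⟩

lemma Data.one_le {f : Finset V → ℝ} (h : Data f) {X : Finset V} (hX : 0 < f X) : 1 ≤ f X := by
  obtain ⟨n, hn⟩ := h.int X
  rw [hn] at hX ⊢
  exact_mod_cast hX

/-- Opposite greedy vectors on the interval from `S` to `T`. -/
def Opp (f : Finset V → ℝ) (S T : Finset V) : Prop :=
  ∃ x : V → ℝ, MChain f x S T ∧ MChain f (-x) S T

omit [Fintype V] in
lemma Opp.trans {f : Finset V → ℝ} {S T U : Finset V} (h : Opp f S T) (h' : Opp f T U) :
    Opp f S U := by
  obtain ⟨x, x1, x2⟩ := h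
  obtain ⟨y, y1, y2⟩ := h'
  refine ⟨fun i => if i ∈ T then x i else y i, ?_, ?_⟩
  · refine (x1.congr fun i hi _ => ?_).trans (y1.congr fun i _ hi => ?_)
    · simp [hi]
    · simp [hi]
  · refine (x2.congr fun i hi _ => ?_).trans (y2.congr fun i _ hi => ?_)
    · simp [hi]
    · simp [hi]

/-- an irreducible component -/
def Irred (f : Finset V → ℝ) (S T : Finset V) : Prop :=
  S ⊂ T ∧ f S = 0 ∧ f T = 0 ∧ ∀ X, S ⊂ X → X ⊂ T → 0 < f X

lemma opp_of_irred {f : Finset V → ℝ} (h : Data f) (H : ∀ S T, Irred f S T → Opp f S T) :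
    Opp f ∅ Finset.univ := by
  have key : ∀ n : ℕ, ∀ S T : Finset V, S ⊆ T → #(T \ S) = n → f S = 0 → f T = 0 →
      Opp f S T := by
    intro n
    induction n using Nat.strong_induction_on with
    | _ n ih =>
      intro S T hST hn hS hT
      rcases eq_or_ne S T with rfl | hne
      · exact ⟨0, MChain.refl _, MChain.refl _⟩
      have hss : S ⊂ T := lt_of_le_of_ne hST hne
      by_cases hir : ∀ X, S ⊂ X → X ⊂ T → 0 < f X
      · exact H S T ⟨hss, hS, hT, hir⟩
      push Not at hir
      obtain ⟨X, hX1, hX2, hX3⟩ := hir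
      have hX : f X = 0 := le_antisymm hX3 (h.nonneg X)
      have c1 : #(X \ S) < n := by
        rw [← hn]
        refine Finset.card_lt_card ⟨Finset.sdiff_subset_sdiff hX2.1 (Finset.Subset.refl _),
          fun hcon => ?_⟩
        obtain ⟨a, ha, ha'⟩ := Finset.exists_of_ssubset hX2
        have : a ∈ T \ S := Finset.mem_sdiff.2 ⟨ha, fun h1 => ha' (hX1.1 h1)⟩
        exact ha' (Finset.mem_sdiff.1 (hcon this)).1
      have c2 : #(T \ X) < n := by
        rw [← hn]
        refine Finset.card_lt_card ⟨Finset.sdiff_subset_sdiff (Finset.Subset.refl _) hX1.1,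
          fun hcon => ?_⟩
        obtain ⟨a, ha, ha'⟩ := Finset.exists_of_ssubset hX1
        have : a ∈ T \ S := Finset.mem_sdiff.2 ⟨hX2.1 ha, ha'⟩
        exact (Finset.mem_sdiff.1 (hcon this)).2 ha
      exact (ih _ c1 S X hX1.1 rfl hS hX).trans (ih _ c2 X T hX2.1 rfl hX hT)
  exact key _ ∅ Finset.univ (Finset.subset_univ _) rfl h.empty h.univ

end Pool.Agent.H54.Frank
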