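import Pool.Agent.H54.Frank.Star

/-!
# Opposite vertices from a path to the antipode
-/

set_option autoImplicit false
set_option maxHeartbeats 4000000

open Finset

namespace Pool.Agent.H54.Frank

section nofin

variable {V : Type*} [DecidableEq V]

lemma chain_of_lin {g : Finset V → ℝ} {k c : ℝ} {S T : Finset V} (hST : S ⊆ T)
    (h : ∀ X, S ⊆ X → X ⊆ T → g X = k + c * #(X \ S)) : MChain g (fun _ => c) S T := by
  obtain ⟨D, rfl, hD⟩ : ∃ D, T = S ∪ D ∧ Disjoint S D :=
    ⟨T \ S, by rw [Finset.union_sdiff_of_subset hST], Finset.disjoint_sdiff⟩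
  clear hST
  induction D using Finset.induction_on with
  | empty => rw [Finset.union_empty]; exact MChain.refl _
  | insert a D ha ih =>
    rw [Finset.disjoint_insert_right] at hD
    have h1 : S ∪ D ⊆ S ∪ insert a D :=
      Finset.union_subset_union (Finset.Subset.refl _) (Finset.subset_insert _ _)
    have h2 := ih hD.2 (fun X hX hX' => h X hX (hX'.trans h1))
    have ha' : a ∉ S ∪ D := by
      simp only [Finset.mem_union, not_or]; exact ⟨hD.1, ha⟩
    have h3 := h (S ∪ D) Finset.subset_union_left h1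
    have h4 := h (S ∪ insert a D) Finset.subset_union_left (Finset.Subset.refl _)
    have e1 : (S ∪ D) \ S = D := by
      rw [Finset.union_sdiff_left, Finset.sdiff_eq_self_of_disjoint hD.2.symm]
    have e2 : (S ∪ insert a D) \ S = insert a D := by
      rw [Finset.union_sdiff_left, Finset.sdiff_eq_self_of_disjoint]
      exact (Finset.disjoint_insert_right.2 hD).symm
    rw [e1] at h3
    rw [e2, Finset.card_insert_of_notMem ha] at h4
    rw [Finset.union_insert]
    refine MChain.step h2 ha' ?_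
    rw [← Finset.union_insert, h3, h4]
    push_cast
    ring

/-- the sign vector of a pair of sets -/
def vec (A N : Finset V) : V → ℝ := fun i => if i ∈ A then 1 else if i ∈ N then -1 else 0

lemma vec_neg {A N : Finset V} (h : Disjoint A N) : -vec A N = vec N A := by
  funext i
  simp only [vec, Pi.neg_apply]
  by_cases h1 : i ∈ A
  · have h2 : i ∉ N := Finset.disjoint_left.1 h h1
    simp [h1, h2]
  · by_cases h2 : i ∈ N <;> simp [h1, h2]

end nofin

variable {V : Type*} [Fintype V] [DecidableEq V]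

lemma Data.up {f : Finset V → ℝ} (h : Data f) {X Y : Finset V} (hXY : X ⊆ Y) :
    f Y ≤ f X + #(Y \ X) ∧ f X ≤ f Y + #(Y \ X) := by
  obtain ⟨D, rfl, hD⟩ : ∃ D, Y = X ∪ D ∧ Disjoint X D :=
    ⟨Y \ X, by rw [Finset.union_sdiff_of_subset hXY], Finset.disjoint_sdiff⟩
  clear hXY
  rw [Finset.union_sdiff_left, Finset.sdiff_eq_self_of_disjoint hD.symm]
  induction D using Finset.induction_on with
  | empty => simp
  | insert a D ha ih =>
    rw [Finset.disjoint_insert_right] at hD
    have h2 := ih hD.2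
    have ha' : a ∉ X ∪ D := by
      simp only [Finset.mem_union, not_or]; exact ⟨hD.1, ha⟩
    have h3 := h.marg _ _ ha'
    rw [Finset.union_insert, Finset.card_insert_of_notMem ha]
    push_cast
    rcases h3 with h3 | h3 | h3 <;> constructor <;> linarith

/-- The pair `(A, N)` is an integral point `χ_A - χ_N` of `B ∩ (-B)` in the component from `S`
to `T`, with `k` coordinates `1` and `k` coordinates `-1`, and no set `X` separating `A` from `N`
has value `> k` together with its complement. -/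
structure Pt (f : Finset V → ℝ) (S T : Finset V) (k : ℕ) (A N : Finset V) : Prop where
  hA : A ⊆ T \ S
  hN : N ⊆ T \ S
  dis : Disjoint A N
  cA : #A = k
  cN : #N = k
  lo : ∀ X, S ∪ A ⊆ X → X ⊆ T \ N → (k : ℝ) ≤ f X
  hi : ∀ X, S ∪ N ⊆ X → X ⊆ T \ A → (k : ℝ) ≤ f X
  loc : ∀ X, S ∪ A ⊆ X → X ⊆ T \ N → f X ≤ k ∨ f (S ∪ (T \ X)) ≤ k

omit [Fintype V] in
lemma co_mem {S T X : Finset V} (h1 : S ⊆ X) (h2 : X ⊆ T) : S ∪ (T \ (S ∪ (T \ X))) = X := by
  ext i
  simp only [Finset.mem_union, Finset.mem_sdiff, not_or, not_and, not_not]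
  constructor
  · rintro (h | ⟨h3, h4, h5⟩)
    · exact h1 h
    · exact h5 h3
  · intro h
    by_cases hS : i ∈ S
    · exact Or.inl hS
    · exact Or.inr ⟨h2 h, hS, fun _ => h⟩

omit [Fintype V] in
/-- complements of sets in the interval -/
lemma co_sub {S T A N : Finset V} (hST : S ⊆ T) (hA : A ⊆ T \ S) (hN : N ⊆ T \ S) :
    ∀ X, S ∪ A ⊆ X → X ⊆ T \ N → S ∪ N ⊆ S ∪ (T \ X) ∧ S ∪ (T \ X) ⊆ T \ A := by
  intro X h1 h2
  constructor
  · refine Finset.union_subset Finset.subset_union_left fun i hi => ?_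
    exact Finset.mem_union_right _ (Finset.mem_sdiff.2 ⟨(Finset.mem_sdiff.1 (hN hi)).1,
      fun h3 => (Finset.mem_sdiff.1 (h2 h3)).2 hi⟩)
  · refine Finset.union_subset (fun i hi => Finset.mem_sdiff.2 ⟨hST hi,
      fun h3 => (Finset.mem_sdiff.1 (hA h3)).2 hi⟩) fun i hi => ?_
    obtain ⟨h3, h4⟩ := Finset.mem_sdiff.1 hi
    exact Finset.mem_sdiff.2 ⟨h3, fun h5 => h4 (h1 (Finset.mem_union_right _ h5))⟩

omit [Fintype V] in
lemma Pt.symm {f : Finset V → ℝ} {S T : Finset V} {k : ℕ} {A N : Finset V} (hST : S ⊆ T)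
    (h : Pt f S T k A N) : Pt f S T k N A := by
  refine ⟨h.hN, h.hA, h.dis.symm, h.cN, h.cA, h.hi, h.lo, fun X h1 h2 => ?_⟩
  have h3 := co_sub hST h.hN h.hA X h1 h2
  have h4 := h.loc _ h3.1 h3.2
  rw [co_mem (Finset.subset_union_left.trans h1) (h2.trans Finset.sdiff_subset)] at h4
  exact h4.symm

omit [Fintype V] in
lemma sub_aux {S T A N : Finset V} (hST : S ⊆ T) (hA : A ⊆ T \ S) (hN : N ⊆ T \ S)
    (hd : Disjoint A N) : S ∪ A ⊆ T \ N := by
  intro i hi
  rcases Finset.mem_union.1 hi with h | h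
  · exact Finset.mem_sdiff.2 ⟨hST h, fun h' => (Finset.mem_sdiff.1 (hN h')).2 h⟩
  · exact Finset.mem_sdiff.2 ⟨(Finset.mem_sdiff.1 (hA h)).1, Finset.disjoint_left.1 hd h⟩

lemma val_low {f : Finset V → ℝ} (h : Data f) {S A : Finset V} (hS : f S = 0)
    (hSA : Disjoint S A) (hA : (#A : ℝ) ≤ f (S ∪ A)) :
    ∀ X, S ⊆ X → X ⊆ S ∪ A → f X = 0 + 1 * #(X \ S) := by
  intro X h1 h2
  have a1 := (h.up h1).1
  have a2 := (h.up h2).1
  have e : (#((S ∪ A) \ X) : ℝ) + #(X \ S) = #A := by
    have : #((S ∪ A) \ X) + #(X \ S) = #A := by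
      have e1 := Finset.card_sdiff_add_card_eq_card h2
      have e2 := Finset.card_sdiff_add_card_eq_card h1
      have e3 := Finset.card_union_of_disjoint hSA
      omega
    exact_mod_cast this
  linarith

lemma val_high {f : Finset V → ℝ} (h : Data f) {T N : Finset V} (hT : f T = 0)
    (hNT : N ⊆ T) (hN : (#N : ℝ) ≤ f (T \ N)) :
    ∀ X, T \ N ⊆ X → X ⊆ T → f X = #N + (-1) * #(X \ (T \ N)) := by
  intro X h1 h2
  have a1 := (h.up h1).2
  have a2 := (h.up h2).2
  have e : (#(T \ X) : ℝ) + #(X \ (T \ N)) = #N := by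
    have : #(T \ X) + #(X \ (T \ N)) = #N := by
      have e1 := Finset.card_sdiff_add_card_eq_card h2
      have e2 := Finset.card_sdiff_add_card_eq_card h1
      have e3 := Finset.card_sdiff_add_card_eq_card hNT
      omega
    exact_mod_cast this
  linarith

/-- The vector `χ_A - χ_N` follows a chain. -/
lemma chain_vec {f : Finset V → ℝ} (h : Data f) {S T A N : Finset V} (hS : f S = 0)
    (hT : f T = 0) (hA : A ⊆ T \ S) (hN : N ⊆ T \ S)
    (vA : (#A : ℝ) ≤ f (S ∪ A)) (vN : (#N : ℝ) ≤ f (T \ N)) (hd : Disjoint A N)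
    (R : MChain f 0 (S ∪ A) (T \ N)) : MChain f (vec A N) S T := by
  have hSA : Disjoint S A := by
    rw [Finset.disjoint_left]
    exact fun i hi hi' => (Finset.mem_sdiff.1 (hA hi')).2 hi
  have hNT : N ⊆ T := hN.trans Finset.sdiff_subset
  have c1 : MChain f (fun _ => 1) S (S ∪ A) :=
    chain_of_lin Finset.subset_union_left (val_low h hS hSA vA)
  have c2 : MChain f (fun _ => -1) (T \ N) T :=
    chain_of_lin Finset.sdiff_subset (val_high h hT hNT vN)
  refine ((c1.congr fun i hi hiS => ?_).trans (R.congr fun i hi hi' => ?_)).trans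
    (c2.congr fun i hi hi' => ?_)
  · have hiA : i ∈ A := (Finset.mem_union.1 hi).resolve_left hiS
    simp [vec, hiA]
  · have h1 : i ∉ A := fun h0 => hi' (Finset.mem_union_right _ h0)
    have h2 : i ∉ N := (Finset.mem_sdiff.1 hi).2
    simp [vec, h1, h2]
  · have h1 : i ∈ N := by
      by_contra h0
      exact hi' (Finset.mem_sdiff.2 ⟨hi, h0⟩)
    have h2 : i ∉ A := fun h0 => Finset.disjoint_left.1 hd h0 h1
    simp [vec, h1, h2]

lemma opp_of_chains {f : Finset V → ℝ} (h : Data f) {S T A N : Finset V} (hS : f S = 0)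
    (hT : f T = 0) (hA : A ⊆ T \ S) (hN : N ⊆ T \ S)
    (vA : (#A : ℝ) ≤ f (S ∪ A)) (vN : (#N : ℝ) ≤ f (T \ N))
    (vN' : (#N : ℝ) ≤ f (S ∪ N)) (vA' : (#A : ℝ) ≤ f (T \ A)) (hd : Disjoint A N)
    (R : MChain f 0 (S ∪ A) (T \ N)) (R' : MChain f 0 (S ∪ N) (T \ A)) : Opp f S T := by
  refine ⟨vec A N, chain_vec h hS hT hA hN vA vN hd R, ?_⟩
  rw [vec_neg hd]
  exact chain_vec h hS hT hN hA vN' vA' hd.symm R'

/-- `f` is equal to `k` on all sets from `S ∪ N` to `T \ A`. -/
def Tot (f : Finset V → ℝ) (S T : Finset V) (k : ℕ) (A N : Finset V) : Prop :=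
  ∀ X, S ∪ N ⊆ X → X ⊆ T \ A → f X = k

lemma dichotomy {f : Finset V → ℝ} (h : Data f) {S T : Finset V} {k : ℕ} (hST : S ⊆ T)
    (hS : f S = 0) (hT : f T = 0) {A N : Finset V}
    (hp : Pt f S T k A N) : MChain f 0 (S ∪ A) (T \ N) ∨ Tot f S T k A N := by
  have hsub := sub_aux hST hp.hA hp.hN hp.dis
  have hSA : Disjoint S A := by
    rw [Finset.disjoint_left]
    exact fun i hi hi' => (Finset.mem_sdiff.1 (hp.hA hi')).2 hi
  have hNT : N ⊆ T := hp.hN.trans Finset.sdiff_subset
  have hco := co_sub hST hp.hA hp.hN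
  have vA : f (S ∪ A) = k := by
    refine le_antisymm ?_ (hp.lo _ (Finset.Subset.refl _) hsub)
    have := (h.up (Finset.subset_union_left (s₁ := S) (s₂ := A))).1
    rw [hS, Finset.union_sdiff_left, Finset.sdiff_eq_self_of_disjoint hSA.symm, hp.cA] at this
    linarith
  have vN : f (T \ N) = k := by
    refine le_antisymm ?_ (hp.lo _ hsub (Finset.Subset.refl _))
    have := (h.up (Finset.sdiff_subset (s := T) (t := N))).2
    rw [hT, Finset.sdiff_sdiff_eq_self hNT, hp.cN] at this
    linarith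
  have hres := star (g := f) (h := fun X => f (S ∪ (T \ X))) (S := S ∪ A) (T := T \ N) (k := k)
    hsub (fun X Y _ _ _ _ => h.sub X Y) ?_ hp.lo
    (fun X h1 h2 => hp.hi _ (hco X h1 h2).1 (hco X h1 h2).2) vA vN ?_
  · rcases hres with hres | hres
    · exact Or.inl hres
    · right
      intro W w1 w2
      have hSW : S ⊆ W := Finset.subset_union_left.trans w1
      have hWT : W ⊆ T := w2.trans Finset.sdiff_subset
      have h1 : S ∪ A ⊆ S ∪ (T \ W) := by
        refine Finset.union_subset Finset.subset_union_left fun i hi => ?_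
        exact Finset.mem_union_right _ (Finset.mem_sdiff.2 ⟨(Finset.mem_sdiff.1 (hp.hA hi)).1,
          fun h3 => (Finset.mem_sdiff.1 (w2 h3)).2 hi⟩)
      have h2 : S ∪ (T \ W) ⊆ T \ N := by
        refine Finset.union_subset (fun i hi => Finset.mem_sdiff.2 ⟨hST hi,
          fun h3 => (Finset.mem_sdiff.1 (hp.hN h3)).2 hi⟩) fun i hi => ?_
        obtain ⟨h3, h4⟩ := Finset.mem_sdiff.1 hi
        exact Finset.mem_sdiff.2 ⟨h3, fun h5 => h4 (w1 (Finset.mem_union_right _ h5))⟩
      have h3 := hres _ h1 h2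
      simp only [co_mem hSW hWT] at h3
      exact h3
  · intro X Y _ _ _ _
    have e1 : S ∪ (T \ (X ∪ Y)) = (S ∪ (T \ X)) ∩ (S ∪ (T \ Y)) := by
      ext i; simp only [Finset.mem_union, Finset.mem_sdiff, Finset.mem_inter]; tauto
    have e2 : S ∪ (T \ (X ∩ Y)) = (S ∪ (T \ X)) ∪ (S ∪ (T \ Y)) := by
      ext i; simp only [Finset.mem_union, Finset.mem_sdiff, Finset.mem_inter]; tauto
    simp only [e1, e2]
    have := h.sub (S ∪ (T \ X)) (S ∪ (T \ Y))
    linarith
  · intro X h1 h2
    have k1 := hp.lo X h1 h2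
    have k2 := hp.hi _ (hco X h1 h2).1 (hco X h1 h2).2
    rcases hp.loc X h1 h2 with k3 | k3
    · exact Or.inl (le_antisymm k3 k1)
    · exact Or.inr (le_antisymm k3 k2)

/-- One move: a coordinate `1` or a coordinate `-1` is moved to a zero coordinate. -/
def Move (f : Finset V → ℝ) (S T : Finset V) (k : ℕ) (p q : Finset V × Finset V) : Prop :=
  Pt f S T k q.1 q.2 ∧ ∃ c ∈ T \ S, c ∉ p.1 ∧ c ∉ p.2 ∧
    ((∃ a ∈ p.1, q.1 = insert c (p.1.erase a) ∧ q.2 = p.2) ∨
      (∃ b ∈ p.2, q.1 = p.1 ∧ q.2 = insert c (p.2.erase b)))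

omit [Fintype V] in
lemma Move.swap {f : Finset V → ℝ} {S T : Finset V} {k : ℕ} {p q : Finset V × Finset V}
    (hST : S ⊆ T) (h : Move f S T k p q) : Move f S T k p.swap q.swap := by
  obtain ⟨h1, c, h2, h3, h4, h5⟩ := h
  refine ⟨h1.symm hST, c, h2, h4, h3, ?_⟩
  rcases h5 with ⟨a, h6, h7, h8⟩ | ⟨b, h6, h7, h8⟩
  · exact Or.inr ⟨a, h6, h8, h7⟩
  · exact Or.inl ⟨b, h6, h8, h7⟩

omit [Fintype V] in
lemma tot_chain {f : Finset V → ℝ} {S T : Finset V} {k : ℕ} (hST : S ⊆ T) {A N : Finset V}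
    (hp : Pt f S T k A N) (ht : Tot f S T k A N) : MChain f 0 (S ∪ N) (T \ A) :=
  chain_of_const (sub_aux hST hp.hN hp.hA hp.dis.symm) ht

lemma move_chain {f : Finset V → ℝ} (h : Data f) {S T : Finset V} {k : ℕ} (hST : S ⊆ T)
    (hS : f S = 0) (hT : f T = 0) {p q : Finset V × Finset V}
    (hp : Pt f S T k p.1 p.2) (ht : Tot f S T k p.1 p.2) (hm : Move f S T k p q) :
    MChain f 0 (S ∪ q.2) (T \ q.1) := by
  obtain ⟨A, N⟩ := p
  obtain ⟨A', N'⟩ := q
  obtain ⟨hq, c, hc, hcA, hcN, hcase⟩ := hm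
  simp only at *
  obtain ⟨hcT, hcS⟩ := Finset.mem_sdiff.1 hc
  have hsub' := sub_aux hST hq.hN hq.hA hq.dis.symm
  rcases hcase with ⟨a, ha, rfl, rfl⟩ | ⟨b, hb, rfl, rfl⟩
  · obtain ⟨haT, haS⟩ := Finset.mem_sdiff.1 (hp.hA ha)
    have e : T \ insert c (A.erase a) = insert a (T \ insert c A) := by
      ext i
      simp only [Finset.mem_sdiff, Finset.mem_insert, Finset.mem_erase, not_or, not_and]
      constructor
      · rintro ⟨h1, h2, h3⟩
        by_cases hia : i = a
        · exact Or.inl hia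
        · exact Or.inr ⟨h1, h2, h3 hia⟩
      · rintro (rfl | ⟨h1, h2, h3⟩)
        · exact ⟨haT, fun h1 => hcA (h1 ▸ ha), fun h1 => absurd rfl h1⟩
        · exact ⟨h1, h2, fun _ => h3⟩
    have vA : f (T \ insert c (A.erase a)) = k := by
      refine le_antisymm ?_ (hq.hi _ hsub' (Finset.Subset.refl _))
      have := (h.up (Finset.sdiff_subset (s := T) (t := insert c (A.erase a)))).2
      rw [hT, Finset.sdiff_sdiff_eq_self (hq.hA.trans Finset.sdiff_subset), hq.cA] at this
      linarith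
    have s1 : S ∪ N' ⊆ T \ insert c A := by
      intro i hi
      rcases Finset.mem_union.1 hi with h1 | h1
      · refine Finset.mem_sdiff.2 ⟨hST h1, fun h2 => ?_⟩
        rcases Finset.mem_insert.1 h2 with rfl | h3
        · exact hcS h1
        · exact (Finset.mem_sdiff.1 (hp.hA h3)).2 h1
      · refine Finset.mem_sdiff.2 ⟨(Finset.mem_sdiff.1 (hp.hN h1)).1, fun h2 => ?_⟩
        rcases Finset.mem_insert.1 h2 with rfl | h3
        · exact hcN h1
        · exact Finset.disjoint_left.1 hp.dis h3 h1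
    have s2 : T \ insert c A ⊆ T \ A :=
      Finset.sdiff_subset_sdiff (Finset.Subset.refl _) (Finset.subset_insert _ _)
    have c1 : MChain f 0 (S ∪ N') (T \ insert c A) :=
      chain_of_const s1 fun X h1 h2 => ht X h1 (h2.trans s2)
    rw [e]
    refine MChain.step c1 (fun h1 => (Finset.mem_sdiff.1 h1).2 (Finset.mem_insert_of_mem ha)) ?_
    rw [← e, vA, ht _ s1 s2]
    simp
  · obtain ⟨hbT, hbS⟩ := Finset.mem_sdiff.1 (hp.hN hb)
    have hbc : b ≠ c := fun h0 => hcN (h0 ▸ hb)
    have e : insert b (S ∪ insert c (N.erase b)) = S ∪ insert c N := by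
      ext i
      simp only [Finset.mem_union, Finset.mem_insert, Finset.mem_erase]
      constructor
      · rintro (rfl | h1 | h1 | ⟨h1, h2⟩)
        · exact Or.inr (Or.inr hb)
        · exact Or.inl h1
        · exact Or.inr (Or.inl h1)
        · exact Or.inr (Or.inr h2)
      · rintro (h1 | h1 | h1)
        · exact Or.inr (Or.inl h1)
        · exact Or.inr (Or.inr (Or.inl h1))
        · by_cases hib : i = b
          · exact Or.inl hib
          · exact Or.inr (Or.inr (Or.inr ⟨hib, h1⟩))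
    have vN : f (S ∪ insert c (N.erase b)) = k := by
      refine le_antisymm ?_ (hq.hi _ (Finset.Subset.refl _) hsub')
      have hd : Disjoint S (insert c (N.erase b)) := by
        rw [Finset.disjoint_left]
        exact fun i hi hi' => (Finset.mem_sdiff.1 (hq.hN hi')).2 hi
      have := (h.up (Finset.subset_union_left (s₁ := S) (s₂ := insert c (N.erase b)))).1
      rw [hS, Finset.union_sdiff_left, Finset.sdiff_eq_self_of_disjoint hd.symm, hq.cN] at this
      linarith
    have s1 : S ∪ N ⊆ S ∪ insert c N :=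
      Finset.union_subset_union (Finset.Subset.refl _) (Finset.subset_insert _ _)
    have s2 : S ∪ insert c N ⊆ T \ A' := by
      intro i hi
      rcases Finset.mem_union.1 hi with h1 | h1
      · exact Finset.mem_sdiff.2 ⟨hST h1, fun h2 => (Finset.mem_sdiff.1 (hp.hA h2)).2 h1⟩
      · rcases Finset.mem_insert.1 h1 with rfl | h3
        · exact Finset.mem_sdiff.2 ⟨hcT, hcA⟩
        · exact Finset.mem_sdiff.2 ⟨(Finset.mem_sdiff.1 (hp.hN h3)).1,
            fun h4 => Finset.disjoint_left.1 hp.dis h4 h3⟩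
    have c1 : MChain f 0 (S ∪ insert c N) (T \ A') :=
      chain_of_const s2 fun X h1 h2 => ht X (s1.trans h1) h2
    refine MChain.trans ?_ c1
    rw [← e]
    refine MChain.step (MChain.refl _) ?_ ?_
    · intro h1
      rcases Finset.mem_union.1 h1 with h2 | h2
      · exact hbS h2
      · rcases Finset.mem_insert.1 h2 with h3 | h3
        · exact hbc h3
        · exact (Finset.mem_erase.1 h3).1 rfl
    · rw [e, ht _ s1 s2, vN]
      simp

/-- **Opposite vertices from a path to the antipode.** -/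
theorem opp_of_path {f : Finset V → ℝ} (h : Data f) {S T : Finset V} {k : ℕ} (hST : S ⊆ T)
    (hS : f S = 0) (hT : f T = 0) {A N : Finset V} (hp : Pt f S T k A N)
    (path : Relation.ReflTransGen (Move f S T k) (A, N) (N, A)) : Opp f S T := by
  by_contra hno
  have R : ∀ A N, Pt f S T k A N → MChain f 0 (S ∪ A) (T \ N) → MChain f 0 (S ∪ N) (T \ A) →
      False := by
    intro A N hq r1 r2
    have s1 := sub_aux hST hq.hA hq.hN hq.dis
    have s2 := sub_aux hST hq.hN hq.hA hq.dis.symm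
    refine hno (opp_of_chains h hS hT hq.hA hq.hN ?_ ?_ ?_ ?_ hq.dis r1 r2)
    · rw [hq.cA]; exact hq.lo _ (Finset.Subset.refl _) s1
    · rw [hq.cN]; exact hq.lo _ s1 (Finset.Subset.refl _)
    · rw [hq.cN]; exact hq.hi _ (Finset.Subset.refl _) s2
    · rw [hq.cA]; exact hq.hi _ s2 (Finset.Subset.refl _)
  have prop : ∀ p q : Finset V × Finset V, Relation.ReflTransGen (Move f S T k) p q →
      Pt f S T k p.1 p.2 → Tot f S T k p.1 p.2 → Pt f S T k q.1 q.2 ∧ Tot f S T k q.1 q.2 := by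
    intro p q hpq h1 h2
    induction hpq with
    | refl => exact ⟨h1, h2⟩
    | @tail q r _ hm ih =>
      refine ⟨hm.1, ?_⟩
      have h3 := move_chain h hST hS hT ih.1 ih.2 hm
      rcases dichotomy h hST hS hT hm.1 with h4 | h4
      · exact (R _ _ hm.1 h4 h3).elim
      · exact h4
  have lift : ∀ p q : Finset V × Finset V, Relation.ReflTransGen (Move f S T k) p q →
      Relation.ReflTransGen (Move f S T k) p.swap q.swap := by
    intro p q hpq
    induction hpq with
    | refl => exact Relation.ReflTransGen.refl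
    | tail _ hm ih => exact ih.tail (Move.swap hST hm)
  have path' : Relation.ReflTransGen (Move f S T k) (N, A) (A, N) := lift _ _ path
  rcases dichotomy h hST hS hT hp with h1 | h1
  · rcases dichotomy h hST hS hT (hp.symm hST) with h2 | h2
    · exact R _ _ hp h1 h2
    · have h3 := (prop _ _ path' (hp.symm hST) h2).2
      exact R _ _ hp (tot_chain hST (hp.symm hST) h2) (tot_chain hST hp h3)
  · have h3 := (prop _ _ path hp h1).2
    exact R _ _ hp (tot_chain hST (hp.symm hST) h3) (tot_chain hST hp h1)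

end Pool.Agent.H54.Frank
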