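import Pool.Agent.H54.Frank.Base

/-!
# The dichotomy for two submodular functions on an interval
-/

set_option autoImplicit false
set_option maxHeartbeats 4000000

open Finset

namespace Pool.Agent.H54.Frank

variable {V : Type*} [DecidableEq V]

/-- `g` is submodular on the interval from `S` to `T`. -/
def SubOn (g : Finset V → ℝ) (S T : Finset V) : Prop :=
  ∀ X Y : Finset V, S ⊆ X → X ⊆ T → S ⊆ Y → Y ⊆ T → g (X ∪ Y) + g (X ∩ Y) ≤ g X + g Y

/-- all sets between `S` and `T` have value `k` -/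
lemma chain_of_const {g : Finset V → ℝ} {k : ℝ} {S T : Finset V} (hST : S ⊆ T)
    (h : ∀ X, S ⊆ X → X ⊆ T → g X = k) : MChain g 0 S T := by
  obtain ⟨D, rfl, hD⟩ : ∃ D, T = S ∪ D ∧ Disjoint S D :=
    ⟨T \ S, by rw [Finset.union_sdiff_of_subset hST], Finset.disjoint_sdiff⟩
  clear hST
  induction D using Finset.induction_on with
  | empty => rw [Finset.union_empty]; exact MChain.refl _
  | insert a D ha ih =>
    rw [Finset.disjoint_insert_right] at hD
    have h1 : S ∪ D ⊆ S ∪ insert a D :=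
      Finset.union_subset_union (Finset.Subset.refl _) (Finset.subset_insert _ _)
    have h2 := ih hD.2 (fun X hX hX' => h X hX (hX'.trans h1))
    have ha' : a ∉ S ∪ D := by
      simp only [Finset.mem_union, not_or]; exact ⟨hD.1, ha⟩
    rw [Finset.union_insert]
    refine MChain.step h2 ha' ?_
    rw [h (S ∪ D) Finset.subset_union_left h1, ← Finset.union_insert,
      h (S ∪ insert a D) Finset.subset_union_left (Finset.Subset.refl _)]
    simp

/-- **The dichotomy.** -/
theorem star {g h : Finset V → ℝ} {S T : Finset V} {k : ℝ} (hST : S ⊆ T)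
    (hg : SubOn g S T) (hh : SubOn h S T)
    (gk : ∀ X, S ⊆ X → X ⊆ T → k ≤ g X) (hk : ∀ X, S ⊆ X → X ⊆ T → k ≤ h X)
    (gS : g S = k) (gT : g T = k) (H : ∀ X, S ⊆ X → X ⊆ T → g X = k ∨ h X = k) :
    MChain g 0 S T ∨ ∀ X, S ⊆ X → X ⊆ T → h X = k := by
  classical
  by_cases hc : MChain g 0 S T
  · exact Or.inl hc
  right
  -- a maximal set reachable from `S`
  obtain ⟨X, ⟨hX1, hX2, hX3, hX4⟩, hXmax⟩ : ∃ X, (S ⊆ X ∧ X ⊆ T ∧ MChain g 0 S X ∧ g X = k) ∧
      ∀ X', (S ⊆ X' ∧ X' ⊆ T ∧ MChain g 0 S X' ∧ g X' = k) → #X' ≤ #X := by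
    have hne : (T.powerset.filter fun X => S ⊆ X ∧ X ⊆ T ∧ MChain g 0 S X ∧ g X = k).Nonempty :=
      ⟨S, Finset.mem_filter.2 ⟨Finset.mem_powerset.2 hST, Finset.Subset.refl _, hST,
        MChain.refl _, gS⟩⟩
    obtain ⟨X, hX, hmax⟩ := Finset.exists_max_image _ (fun X => #X) hne
    refine ⟨X, (Finset.mem_filter.1 hX).2, fun X' hX' => hmax X' (Finset.mem_filter.2
      ⟨Finset.mem_powerset.2 hX'.2.1, hX'⟩)⟩
  have hXT : X ≠ T := fun h0 => hc (h0 ▸ hX3)
  have hXss : X ⊂ T := lt_of_le_of_ne hX2 hXT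
  -- the next tight set
  obtain ⟨Y, ⟨hY1, hY2, hY3⟩, hYmin⟩ : ∃ Y, (X ⊂ Y ∧ Y ⊆ T ∧ g Y = k) ∧
      ∀ Y', (X ⊂ Y' ∧ Y' ⊆ T ∧ g Y' = k) → #Y ≤ #Y' := by
    have hne : (T.powerset.filter fun Y => X ⊂ Y ∧ Y ⊆ T ∧ g Y = k).Nonempty :=
      ⟨T, Finset.mem_filter.2 ⟨Finset.mem_powerset.2 (Finset.Subset.refl _), hXss,
        Finset.Subset.refl _, gT⟩⟩
    obtain ⟨Y, hY, hmin⟩ := Finset.exists_min_image _ (fun Y => #Y) hne
    refine ⟨Y, (Finset.mem_filter.1 hY).2, fun Y' hY' => hmin Y' (Finset.mem_filter.2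
      ⟨Finset.mem_powerset.2 hY'.2.1, hY'⟩)⟩
  -- the tight sets are closed under union and intersection
  have tight : ∀ A B, S ⊆ A → A ⊆ T → S ⊆ B → B ⊆ T → g A = k → g B = k →
      g (A ∪ B) = k ∧ g (A ∩ B) = k := by
    intro A B a1 a2 b1 b2 a3 b3
    have h1 := hg A B a1 a2 b1 b2
    have h2 := gk (A ∪ B) (a1.trans Finset.subset_union_left) (Finset.union_subset a2 b2)
    have h3 := gk (A ∩ B) (Finset.subset_inter a1 b1) (Finset.inter_subset_left.trans a2)
    constructor <;> linarith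
  have hSY : S ⊆ Y := hX1.trans hY1.1
  -- dichotomy for tight sets
  have dich : ∀ W, S ⊆ W → W ⊆ T → g W = k → (∀ i ∈ Y, i ∉ X → i ∉ W) ∨ ∀ i ∈ Y, i ∉ X → i ∈ W := by
    intro W w1 w2 w3
    have h1 := (tight W Y w1 w2 hSY hY2 w3 hY3).2
    have h2 := (tight X (W ∩ Y) hX1 hX2 (Finset.subset_inter w1 hSY)
      (Finset.inter_subset_left.trans w2) hX4 h1).1
    by_cases hcase : X ⊂ X ∪ (W ∩ Y)
    · right
      have h3 := hYmin _ ⟨hcase, Finset.union_subset hX2 (Finset.inter_subset_left.trans w2), h2⟩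
      have h4 : X ∪ (W ∩ Y) ⊆ Y := Finset.union_subset hY1.1 Finset.inter_subset_right
      have h5 := Finset.eq_of_subset_of_card_le h4 h3
      intro i hi hiX
      rw [← h5] at hi
      rcases Finset.mem_union.1 hi with h6 | h6
      · exact absurd h6 hiX
      · exact (Finset.mem_inter.1 h6).1
    · left
      intro i hi hiX hiW
      apply hcase
      refine ⟨Finset.subset_union_left, fun h3 => hiX (h3 (Finset.mem_union_right _
        (Finset.mem_inter.2 ⟨hiW, hi⟩)))⟩
  -- `Y \ X` has at least two elements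
  obtain ⟨c, hcY, hcX⟩ := Finset.exists_of_ssubset hY1
  obtain ⟨d, hdY, hdX, hdc⟩ : ∃ d, d ∈ Y ∧ d ∉ X ∧ d ≠ c := by
    by_contra hcon
    push Not at hcon
    have hYe : Y = insert c X := by
      ext i
      simp only [Finset.mem_insert]
      constructor
      · intro hi
        by_cases hiX : i ∈ X
        · exact Or.inr hiX
        · exact Or.inl (hcon i hi hiX)
      · rintro (rfl | h1)
        · exact hcY
        · exact hY1.1 h1
    have h1 : MChain g 0 S (insert c X) :=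
      MChain.step hX3 hcX (by rw [← hYe, hY3, hX4]; simp)
    have h2 := hXmax (insert c X) ⟨hX1.trans (Finset.subset_insert _ _), hYe ▸ hY2, h1,
      hYe ▸ hY3⟩
    rw [Finset.card_insert_of_notMem hcX] at h2
    omega
  intro W w1 w2
  by_cases hW : g W = k
  swap
  · exact (H W w1 w2).resolve_left hW
  rcases dich W w1 w2 hW with hd | hd
  · -- `W` is disjoint from `Y \ X`
    have hcW := hd c hcY hcX
    have hdW := hd d hdY hdX
    set W₁ := insert c W with hW₁
    set W₂ := W ∪ ((Y \ X).erase c) with hW₂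
    have s1 : S ⊆ W₁ := w1.trans (Finset.subset_insert _ _)
    have t1 : W₁ ⊆ T := Finset.insert_subset (hY2 hcY) w2
    have s2 : S ⊆ W₂ := w1.trans Finset.subset_union_left
    have t2 : W₂ ⊆ T := Finset.union_subset w2
      ((Finset.erase_subset _ _).trans (Finset.sdiff_subset.trans hY2))
    have n1 : g W₁ ≠ k := by
      intro h0
      rcases dich W₁ s1 t1 h0 with h1 | h1
      · exact h1 c hcY hcX (Finset.mem_insert_self _ _)
      · rcases Finset.mem_insert.1 (h1 d hdY hdX) with h2 | h2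
        · exact hdc h2
        · exact hdW h2
    have n2 : g W₂ ≠ k := by
      intro h0
      rcases dich W₂ s2 t2 h0 with h1 | h1
      · exact h1 d hdY hdX (Finset.mem_union_right _ (Finset.mem_erase.2
          ⟨hdc, Finset.mem_sdiff.2 ⟨hdY, hdX⟩⟩))
      · rcases Finset.mem_union.1 (h1 c hcY hcX) with h2 | h2
        · exact hcW h2
        · exact (Finset.mem_erase.1 h2).1 rfl
    have k1 := (H W₁ s1 t1).resolve_left n1
    have k2 := (H W₂ s2 t2).resolve_left n2
    have e : W₁ ∩ W₂ = W := by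
      ext i
      simp only [hW₁, hW₂, Finset.mem_inter, Finset.mem_insert, Finset.mem_union,
        Finset.mem_erase, Finset.mem_sdiff]
      constructor
      · rintro ⟨h1 | h1, h2 | h2⟩
        · exact h2
        · exact absurd h1 h2.1
        · exact h1
        · exact h1
      · intro h1
        exact ⟨Or.inr h1, Or.inl h1⟩
    have k3 := hh W₁ W₂ s1 t1 s2 t2
    have k4 := hk (W₁ ∪ W₂) (s1.trans Finset.subset_union_left) (Finset.union_subset t1 t2)
    rw [e, k1, k2] at k3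
    have k5 := hk W w1 w2
    linarith
  · -- `W` contains `Y \ X`
    have hcW := hd c hcY hcX
    have hdW := hd d hdY hdX
    set W₁ := W.erase c with hW₁
    set W₂ := W \ ((Y \ X).erase c) with hW₂
    have s1 : S ⊆ W₁ := fun i hi => Finset.mem_erase.2
      ⟨fun h0 => hcX (hX1 (h0 ▸ hi)), w1 hi⟩
    have t1 : W₁ ⊆ T := (Finset.erase_subset _ _).trans w2
    have s2 : S ⊆ W₂ := fun i hi => Finset.mem_sdiff.2 ⟨w1 hi, fun h0 =>
      (Finset.mem_sdiff.1 (Finset.mem_of_mem_erase h0)).2 (hX1 hi)⟩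
    have t2 : W₂ ⊆ T := Finset.sdiff_subset.trans w2
    have n1 : g W₁ ≠ k := by
      intro h0
      rcases dich W₁ s1 t1 h0 with h1 | h1
      · exact h1 d hdY hdX (Finset.mem_erase.2 ⟨hdc, hdW⟩)
      · exact (Finset.mem_erase.1 (h1 c hcY hcX)).1 rfl
    have n2 : g W₂ ≠ k := by
      intro h0
      rcases dich W₂ s2 t2 h0 with h1 | h1
      · refine h1 c hcY hcX (Finset.mem_sdiff.2 ⟨hcW, fun h2 => (Finset.mem_erase.1 h2).1 rfl⟩)
      · exact (Finset.mem_sdiff.1 (h1 d hdY hdX)).2 (Finset.mem_erase.2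
          ⟨hdc, Finset.mem_sdiff.2 ⟨hdY, hdX⟩⟩)
    have k1 := (H W₁ s1 t1).resolve_left n1
    have k2 := (H W₂ s2 t2).resolve_left n2
    have e : W₁ ∪ W₂ = W := by
      ext i
      simp only [hW₁, hW₂, Finset.mem_union, Finset.mem_erase, Finset.mem_sdiff]
      constructor
      · rintro (h1 | h1)
        · exact h1.2
        · exact h1.1
      · intro h1
        by_cases hic : i = c
        · right
          exact ⟨h1, fun h2 => h2.1 hic⟩
        · exact Or.inl ⟨hic, h1⟩
    have k3 := hh W₁ W₂ s1 t1 s2 t2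
    have k4 := hk (W₁ ∩ W₂) (Finset.subset_inter s1 s2) (Finset.inter_subset_left.trans t1)
    rw [e, k1, k2] at k3
    have k5 := hk W w1 w2
    linarith

end Pool.Agent.H54.Frank
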